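import Mathlib
import Pool.Agent.W495.FM.SpreadDefs
import Pool.Agent.Q29.EP.Rows

/-!
# The cohomology of the generic point of a variety over a finite field: definitions
-/

set_option autoImplicit false

namespace Pool.Agent.K6.H79.FF

open Pool.Agent.W495.FM

variable {Ω : Type} [Field Ω] {V : Type}

/-- The system of the nonempty open subschemes `U a` of the variety `X`, with complements `Z a`:
`le a b` says that `U b` is contained in `U a`, and `res` are the restriction maps of motivic and
`ℓ`-adic homology. Two open subschemes contain a common one. -/
structure Opens (T : Homology Ω V) (X : V) where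
  O : Type
  le : O → O → Prop
  refl : ∀ a, le a a
  trans : ∀ {a b c}, le a b → le b c → le a c
  directed : ∀ a b, ∃ c, le a c ∧ le b c
  U : O → V
  Z : O → V
  triple : ∀ a, IsTriple T (Z a) X (U a)
  res : ∀ {a b}, le a b → ∀ n j, Hom T (U a) n j (U b) n j
  comp : ∀ {a b c} (h : le a b) (h' : le b c) (h'' : le a c) (n j : ℤ) (x : T.E (U a) n j),
    (res h'' n j).g x = (res h' n j).g ((res h n j).g x)

variable {T : Homology Ω V} {X : V}

/-- The class `x` on the open subscheme `U a` defines a class at the generic point, an element of the
direct limit of the groups `H_n(U, ℚ_ℓ(j))` over all `U`, which is invariant under Frobenius: `x` is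
invariant after restriction to a smaller open subscheme. -/
def InvariantAtGenericPoint (P : Opens T X) {n j : ℤ} (a : P.O) (x : T.E (P.U a) n j) : Prop :=
  ∃ (b : P.O) (h : P.le a b), T.frob _ _ _ ((P.res h n j).g x) = (P.res h n j).g x

/-- The class at the generic point defined by `x` is zero. -/
def ZeroAtGenericPoint (P : Opens T X) {n j : ℤ} (a : P.O) (x : T.E (P.U a) n j) : Prop :=
  ∃ (b : P.O) (h : P.le a b), (P.res h n j).g x = 0

/-- The class at the generic point defined by `x` is a combination of images of motivic classes:
of elements of the direct limit of the groups `H_n^M(U, ℚ(j))` over all `U`. -/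
def MotivicAtGenericPoint (P : Opens T X) {n j : ℤ} (a : P.O) (x : T.E (P.U a) n j) : Prop :=
  ∃ (b : P.O) (h : P.le a b),
    (P.res h n j).g x ∈ Submodule.span Ω (Set.range (T.reg (P.U b) n j))

/-- Each motivic class vanishes at the generic point. -/
def MotivicVanishes (P : Opens T X) (n j : ℤ) : Prop :=
  ∀ (a : P.O) (m : T.M (P.U a) n j), ∃ (b : P.O) (h : P.le a b), (P.res h n j).f m = 0

/-- The Tate conjecture for the function field of `X` in the homological degrees `n ≤ 2 j`: each
invariant class at the generic point is a combination of motivic classes, and it is zero if the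
motivic classes vanish at the generic point. -/
def TateFunctionField (P : Opens T X) : Prop :=
  ∀ n j : ℤ, n ≤ 2 * j → ∀ (a : P.O) (x : T.E (P.U a) n j), InvariantAtGenericPoint P a x →
    MotivicAtGenericPoint P a x ∧ (MotivicVanishes P n j → ZeroAtGenericPoint P a x)

end Pool.Agent.K6.H79.FF
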