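import Mathlib
import Pool.Agent.K6.H79.FF.Defs
import Pool.Agent.TH170.GS.Main
import Pool.Agent.TH170.GS.TB2

/-!
# The Tate conjecture for function fields
-/

set_option autoImplicit false

namespace Pool.Agent.K6.H79.FF

open NumberField Module Pool.Agent.H204R3.CM Pool.Agent.H977R3.CM Pool.Agent.TH170
  Pool.Agent.W495.TA Pool.Agent.W495.FM Pool.Agent.Q29.EP

variable {Ω : Type} [Field Ω] {V : Type} {T : Homology Ω V} {X : V}

theorem g_zero {A B : V} {i j i' j' : ℤ} (h : Hom T A i j B i' j') : h.g 0 = 0 := by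
  obtain ⟨φ, hφ⟩ := h.lin
  rw [hφ, map_zero]

theorem g_add {A B : V} {i j i' j' : ℤ} (h : Hom T A i j B i' j') (x y : T.E A i j) :
    h.g (x + y) = h.g x + h.g y := by
  obtain ⟨φ, hφ⟩ := h.lin
  rw [hφ, hφ, hφ, map_add]

theorem g_smul {A B : V} {i j i' j' : ℤ} (h : Hom T A i j B i' j') (c : Ω) (x : T.E A i j) :
    h.g (c • x) = c • h.g x := by
  obtain ⟨φ, hφ⟩ := h.lin
  rw [hφ, hφ, map_smul]

theorem reg_zero (hT : IsHomology T) (A : V) (i j : ℤ) : T.reg A i j 0 = 0 := by
  have h := hT.add A i j 0 0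
  rw [add_zero] at h
  exact left_eq_add.1 h

/-- A combination of motivic classes vanishes at the generic point if the motivic classes do. -/
theorem zero_of_motivic (hT : IsHomology T) (P : Opens T X) {n j : ℤ}
    (hM : MotivicVanishes P n j) {b : P.O} {y : T.E (P.U b) n j}
    (hy : y ∈ Submodule.span Ω (Set.range (T.reg (P.U b) n j))) : ZeroAtGenericPoint P b y := by
  induction hy using Submodule.span_induction with
  | mem y hy =>
    obtain ⟨m, rfl⟩ := hy
    obtain ⟨c, h, h1⟩ := hM b m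
    refine ⟨c, h, ?_⟩
    rw [← (P.res h n j).reg, h1, reg_zero hT]
  | zero => exact ⟨b, P.refl b, g_zero _⟩
  | add x y _ _ hx hy =>
    obtain ⟨c, h, h1⟩ := hx
    obtain ⟨c', h', h1'⟩ := hy
    obtain ⟨d, hc, hc'⟩ := P.directed c c'
    refine ⟨d, P.trans h hc, ?_⟩
    rw [g_add, P.comp h hc _ n j x, h1, g_zero, P.comp h' hc' _ n j y, h1', g_zero, add_zero]
  | smul c x _ hx =>
    obtain ⟨d, h, h1⟩ := hx
    exact ⟨d, h, by rw [g_smul, h1, smul_zero]⟩

/-- The Tate conjecture for the function field of a variety all whose open subschemes satisfy the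
Tate conjecture. -/
theorem tate_functionField (hT : IsHomology T) (hW : HasWeights T) (P : Opens T X)
    (h : ∀ a i, IsOnto T (P.U a) i) : TateFunctionField P := by
  intro n j hnj a x hx
  obtain ⟨b, hab, h1⟩ := hx
  rcases lt_or_eq_of_le hnj with h2 | rfl
  · have h3 := hW.weights _ n j h2 _ h1
    exact ⟨⟨b, hab, by rw [h3]; exact Submodule.zero_mem _⟩, fun _ => ⟨b, hab, h3⟩⟩
  · have h3 := (h b j).1 _ h1
    refine ⟨⟨b, hab, h3⟩, fun hM => ?_⟩
    obtain ⟨c, hbc, h4⟩ := zero_of_motivic hT P hM h3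
    exact ⟨c, P.trans hab hbc, by rw [P.comp hab hbc _ _ j x, h4]⟩

/-- For all varieties in the class `Spread` of the schemes generated by abelian varieties with the
slope types `Φ`, the Tate conjecture for the function field in the degrees `n ≤ 2 j`. -/
def FunctionFields {p : ℕ} [Fact p.Prime] (ν : PadicAlgCl p ≃+* ℂ) {I : Type} (K : I → Type)
    [∀ i, Field (K i)] (M : ∀ i, (K i →+* ℂ) → ℤ) (Φ : ∀ i, Set (K i →+* ℂ)) : Prop :=
  ∀ (Ω : Type) [Field Ω] [IsAlgClosed Ω] [CharZero Ω] (V : Type) (T : Homology Ω V),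
    IsHomology T → HasWeights T →
      ∀ X : V, Spread T (Generated T (GS.IsAbelianOfTypes ν K M Φ T)) X →
        ∀ P : Opens T X, TateFunctionField P

/-- The property as a property of families of slope types. -/
def Prp : TypeProperty := fun _ _ ν _ _ K _ _ _ M Φ => FunctionFields ν K M Φ

theorem withoutRelations : WithoutRelations Prp := by
  intro p _ ν I _ K _ _ _ M Φ hind hMc hΦ hno Ω _ _ _ V T hT hW X hX P
  refine tate_functionField hT hW P fun a i => ?_
  refine GS.onto_types (fun (Y : RedAV p ν) hY => ⟨Y, GS.elementary_of_types hind hMc hΦ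
    (fun i => Pool.Agent.Q29.DP.notMem_degTypes_of_noRelations (hno i)) hY, fun k => Or.inr
    ⟨k, RingHom.id _, 1, 1, one_pos, one_pos, rfl, rfl⟩⟩) hT hW ?_ i
  exact Spread.opened _ X _ (P.triple a) hX

end Pool.Agent.K6.H79.FF
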